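import Pool.Agent.Y669.GW.Transfer
import Pool.Agent.Y669.GW.Law

/-!
# Expressibility in one fixed list of words is r.e.-complete

The earlier result says that no algorithm decides, given `A, B₁, ..., Bₙ`, whether `A` is
expressible in `B₁, ..., Bₙ` on every group.  Here the list `B₁, ..., Bₙ` is fixed and only `A` is
given; every recursively enumerable set is many-one reduced to the problem; and all groups may be
replaced by the groups of an arbitrary class which contains the finite symmetric groups, or a group
with a free subgroup of rank two, for example by one single group of this kind.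

The list is the one of the earlier proof, for a rewriting system `R` which simulates the diagonal
function.  The word problem of `R` is recursively enumerable, contains the zeros and avoids the ones
of the diagonal function, hence is many-one complete; words which are different modulo `R` act
differently on the quotient by `R`, which makes the target word inexpressible on an infinite
symmetric group.
-/

set_option autoImplicit false

namespace Pool.Agent.Results.MP_720825_lc.FixedList

open Pool.Agent.Helper583 Pool.Agent.Y669.GW

universe u

/-- `Expressible G Bs A`: the word `A` is expressible in the words of the list `Bs` on the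
group `G`. This is the smallest set of words that contains every variable, contains the word
`B(W_1, ..., W_k)` whenever `B` is in the list and the words substituted for the variables
of `B` are in the set, and is closed under identical equality on `G`. -/
inductive Expressible (G : Type u) [Group G] (Bs : List Word) : Word → Prop
  | var (j : ℕ) : Expressible G Bs [(j, true)]
  | app (B : Word) (hB : B ∈ Bs) (W : ℕ → Word) (hW : ∀ p ∈ B, Expressible G Bs (W p.1)) :
      Expressible G Bs (wSubst W B)
  | congr (W W' : Word) (hW : Expressible G Bs W) (h : IdenticallyEqual G W W') :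
      Expressible G Bs W'

theorem good_of_expressible {s : Type u} (α : Bool → s → s) (Bs : List Word)
    (hBs : ∀ B ∈ Bs, Good α B) {A : Word} (h : Expressible (Equiv.Perm (VV s)) Bs A) :
    Good α A := by
  induction h with
  | var j => exact Good.var α j
  | app B hB W _ ih => exact (hBs B hB).subst α W ih
  | congr W W' _ h ih => exact ih.congr α h

theorem expressible_congr.{v} {G : Type u} {H : Type v} [Group G] [Group H] (e : G ≃* H)
    {Bs : List Word} {A : Word} (h : Expressible G Bs A) : Expressible H Bs A := by
  induction h with
  | var j => exact Expressible.var j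
  | app B hB W _ ih => exact Expressible.app B hB W ih
  | congr W W' _ h ih => exact Expressible.congr W W' ih (identicallyEqual_congr e h)

theorem expressible_of_free.{v} {G : Type u} [Group G] {v : ℕ → G}
    (hv : ∀ x : FreeGroup ℕ, FreeGroup.lift v x = 1 → x = 1) {H : Type v} [Group H]
    {Bs : List Word} {A : Word} (h : Expressible G Bs A) : Expressible H Bs A := by
  induction h with
  | var j => exact Expressible.var j
  | app B hB W _ ih => exact Expressible.app B hB W ih
  | congr W W' _ h ih => exact Expressible.congr W W' ih (identicallyEqual_of_free hv h)

/-- The group `G` has a free subgroup of rank two. -/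
def HasFreeSubgroup (G : Type u) [Group G] : Prop :=
  ∃ φ : FreeGroup (Fin 2) →* G, Function.Injective φ

/-- The class `C` of groups contains, up to isomorphism, all finite symmetric groups. -/
def ContainsSymmetric (C : (G : Type u) → Group G → Prop) : Prop :=
  ∀ n : ℕ, ∃ (G : Type u) (h : Group G), C G h ∧ Nonempty (G ≃* Equiv.Perm (Fin n))

/-- **One fixed list of words.** There is a fixed nonempty finite list `B :: Bs` of words such that

* for every recursively enumerable set `W` there is a computable function `f` from the natural
  numbers to words such that `n` is in `W` if and only if the word `f n` is expressible in the list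
  on every group, and if and only if it is expressible in the list on `G`, for every single group `G`
  with a free subgroup of rank two; in particular no algorithm decides, given a word `A`, whether `A`
  is expressible in the list on every group, and the words for which this is false are not
  recursively enumerable;
* the same holds for every single group `G` with a free subgroup of rank two;
* no decidable set of words contains all words which are expressible in the list on every group,
  and only words which are expressible in it on all finite symmetric groups;
* for every class `C` of groups which contains the finite symmetric groups (all groups, all finite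
  groups, all residually finite groups, ...), no algorithm decides, given a word `A`, whether `A` is
  expressible in the list on every group of the class. -/
theorem result : ∃ (B : Word) (Bs : List Word),
    (∀ W : ℕ → Prop, REPred W → ∃ f : ℕ → Word, Computable f ∧
      (∀ n, W n ↔ ∀ (G : Type u) [Group G], Expressible G (B :: Bs) (f n)) ∧
      ∀ (G : Type u) [Group G], HasFreeSubgroup G → ∀ n, W n ↔ Expressible G (B :: Bs) (f n)) ∧
    (¬ REPred fun A : Word => ¬ ∀ (G : Type u) [Group G], Expressible G (B :: Bs) A) ∧
    (∀ (G : Type u) [Group G], HasFreeSubgroup G →
      (¬ ComputablePred fun A : Word => Expressible G (B :: Bs) A) ∧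
        ¬ REPred fun A : Word => ¬ Expressible G (B :: Bs) A) ∧
    (∀ P : Word → Prop,
      (∀ A, (∀ (G : Type u) [Group G], Expressible G (B :: Bs) A) → P A) →
      (∀ A, P A → ∀ n : ℕ, Expressible (Equiv.Perm (Fin n)) (B :: Bs) A) → ¬ ComputablePred P) ∧
    ∀ C : (G : Type u) → Group G → Prop, ContainsSymmetric C →
      ¬ ComputablePred fun A : Word =>
        ∀ (G : Type u) (h : Group G), C G h → @Expressible G h (B :: Bs) A := by
  obtain ⟨B, Bs, t, A, ht, hA, h0, hup, hfin, hinf⟩ := package.{u}
  have up : ∀ n, A n → ∀ (G : Type u) [Group G], Expressible G (B :: Bs) (t n) := by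
    intro n hn G _
    exact hup n hn G (Expressible G (B :: Bs)) ⟨Expressible.var,
      fun B' hB' σ hσ => Expressible.app B' hB' σ fun p _ => hσ p.1,
      fun W W' hW hc => Expressible.congr W W' hW hc⟩
  have fin : ∀ n, 1 ∈ diag n → ∃ k : ℕ, ¬ Expressible (Equiv.Perm (Fin k)) (B :: Bs) (t n) := by
    intro n hn
    obtain ⟨s, hs, α, h1, h2⟩ := hfin n hn
    obtain ⟨k, ⟨e⟩⟩ := exists_perm s
    exact ⟨k, fun h => h2 (good_of_expressible α _ h1 (expressible_congr e.symm h))⟩
  have hA1 : ∀ n, 1 ∈ diag n → ¬ A n := by
    intro n hn hAn
    obtain ⟨s, hs, α, h1, h2⟩ := hfin n hn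
    exact h2 (good_of_expressible α _ h1 (up n hAn _))
  have iff : ∀ n, A n ↔ ∀ (G : Type u) [Group G], Expressible G (B :: Bs) (t n) := by
    refine fun n => ⟨up n, fun h => ?_⟩
    by_contra hn
    obtain ⟨s, _, α, h1, h2⟩ := hinf n hn
    exact h2 (good_of_expressible α _ h1 (h _))
  have iffG : ∀ (G : Type u) [Group G], HasFreeSubgroup G → ∀ n,
      A n ↔ Expressible G (B :: Bs) (t n) := by
    rintro G _ ⟨φ, hφ⟩ n
    refine ⟨fun h => up n h G, fun h => ?_⟩
    obtain ⟨v, hv⟩ := exists_lift_injective φ hφ
    exact (iff n).2 fun H _ => expressible_of_free hv h
  have hWc : ¬ ComputablePred A := fun hc => diag_insep A hc h0 hA1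
  have hAc : ¬ REPred fun n => ¬ A n := fun h =>
    hWc (ComputablePred.computable_iff_re_compl_re'.2 ⟨hA, h⟩)
  have sep : ∀ P : Word → Prop,
      (∀ A, (∀ (G : Type u) [Group G], Expressible G (B :: Bs) A) → P A) →
      (∀ A, P A → ∀ n : ℕ, Expressible (Equiv.Perm (Fin n)) (B :: Bs) A) → ¬ ComputablePred P := by
    intro P h1 h2 hP
    obtain ⟨hd, hc⟩ := hP
    refine diag_insep (fun n => P (t n)) ⟨fun n => hd (t n), hc.comp ht⟩
      (fun n hn => h1 _ (up n (h0 n hn))) (fun n hn hPn => ?_)
    obtain ⟨k, hk⟩ := fin n hn
    exact hk (h2 _ hPn k)
  refine ⟨B, Bs, ?_, ?_, ?_, sep, ?_⟩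
  · intro W hW
    obtain ⟨g, hg, hWg⟩ := reduce hA h0 hA1 hW
    exact ⟨fun n => t (g n), ht.comp hg, fun n => (hWg n).trans (iff (g n)),
      fun G _ hG n => (hWg n).trans (iffG G hG (g n))⟩
  · intro hre
    refine hAc ?_
    have h1 : REPred fun n => ¬ ∀ (G : Type u) [Group G], Expressible G (B :: Bs) (t n) :=
      Partrec.comp hre ht
    exact h1.of_eq fun n => by rw [iff n]
  · intro G _ hG
    have h2 : ¬ REPred fun A : Word => ¬ Expressible G (B :: Bs) A := by
      intro hre
      refine hAc ?_
      have h1 : REPred fun n => ¬ Expressible G (B :: Bs) (t n) := Partrec.comp hre ht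
      exact h1.of_eq fun n => by rw [iffG G hG n]
    exact ⟨fun h => h2 h.not.to_re, h2⟩
  · intro C hC
    refine sep _ (fun A h G hG _ => h G) (fun A h n => ?_)
    obtain ⟨G, hG, hCG, ⟨e⟩⟩ := hC n
    exact expressible_congr e (h G hG hCG)

end Pool.Agent.Results.MP_720825_lc.FixedList
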